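import Pool.Agent.Work.MP_4489ea_co.Defs
import Pool.Agent.Work.MP_4489ea_co.HJ.Defs
import Pool.Agent.Work.MP_4489ea_co.HJ.Main

/-!
A constructive characterisation of all perfect Roman graphs: they are the graphs generated from the
empty graph by eight operations on graphs with a marked vertex set.
-/

namespace Pool.Agent.Results.MP_4489ea_co.HajosType

open Pool.Agent.Work.MP_4489ea_co Pool.Agent.Work.MP_4489ea_co.HJ

theorem result (n : ℕ) (G : SimpleGraph (Fin n)) :
    PerfectRoman G ↔
      ∃ S : Finset ℕ, Gen { V := Finset.range n, G := G.map Fin.valEmbedding, S := S } :=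
  main G

end Pool.Agent.Results.MP_4489ea_co.HajosType
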