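import Pool.Agent.Work.MP_4489ea_co.Defs
import Pool.Agent.Work.MP_4489ea_co.Main

/-!
Recognising perfect Roman graphs is complete for polynomial time with parallel access to NP, the
reductions producing connected bipartite graphs only.
-/

namespace Pool.Agent.Results.MP_4489ea_co.Theta2Complete

open Pool.Agent.Work.MP_4489ea_co N68a2faeb

theorem result :
    PRLang ∈ Theta2 ∧
    ∀ L ∈ Theta2, ∃ f : List Bool → List Bool, IsPolyTime f ∧
      ∀ x, ∃ (n : ℕ) (G : SimpleGraph (Fin n)), f x = code G ∧ G.Connected ∧ G.IsBipartite ∧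
        (L x = true ↔ PerfectRoman G) := by
  refine ⟨complete.1, fun L hL => ?_⟩
  obtain ⟨f, hf, h⟩ := hard false L hL
  refine ⟨f, hf, fun x => ?_⟩
  obtain ⟨n, G, a1, a2, a3, -, a5⟩ := h x
  exact ⟨n, G, a1, a2, a3 rfl, a5⟩

end Pool.Agent.Results.MP_4489ea_co.Theta2Complete
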